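import Pool.Agent.Helper65_Eng.Ohyd
import Pool.Agent.Helper99_Eng.Otr

/-! # Squad ENG part 3, module ODM1: nondegenerate planes of order dividing `q + 1`.  helper65 -/

set_option autoImplicit false

namespace Pool.Agent.Eng.H65

open Pool.Agent.Eng Pool.Agent.Eng.H99

section
variable {F V : Type} [Field F] [AddCommGroup V] [Module F V]

/-- The Eichler transformation as a linear map. -/
def eichL (Q : QuadraticForm F V) (v x : V) : V →ₗ[F] V where
  toFun z := z + QuadraticMap.polar Q z v • x - QuadraticMap.polar Q z x • v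
      - (Q x * QuadraticMap.polar Q z v) • v
  map_add' a b := by
    simp only [QuadraticMap.polar_add_left]
    module
  map_smul' c a := by
    simp only [QuadraticMap.polar_smul_left, smul_eq_mul, RingHom.id_apply]
    module

theorem eichL_apply (Q : QuadraticForm F V) (v x z : V) : eichL Q v x z =
    z + QuadraticMap.polar Q z v • x - QuadraticMap.polar Q z x • v
      - (Q x * QuadraticMap.polar Q z v) • v := rfl

theorem polar_self' (Q : QuadraticForm F V) (v : V) (hv : Q v = 0) :
    QuadraticMap.polar Q v v = 0 := by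
  rw [QuadraticMap.polar_self, hv]; simp

theorem Q_add (Q : QuadraticForm F V) (a b : V) :
    Q (a + b) = Q a + Q b + QuadraticMap.polar Q a b := by
  rw [QuadraticMap.polar]; ring

theorem eichL_comp (Q : QuadraticForm F V) (v x x' z : V) (hv : Q v = 0)
    (h : QuadraticMap.polar Q v x = 0) (h' : QuadraticMap.polar Q v x' = 0) :
    eichL Q v x (eichL Q v x' z) = eichL Q v (x + x') z := by
  have hvv := polar_self' Q v hv
  have h1 : QuadraticMap.polar Q (eichL Q v x' z) v = QuadraticMap.polar Q z v := by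
    rw [eichL_apply, QuadraticMap.polar_sub_left, QuadraticMap.polar_sub_left,
      QuadraticMap.polar_add_left, QuadraticMap.polar_smul_left, QuadraticMap.polar_smul_left,
      QuadraticMap.polar_smul_left, hvv, QuadraticMap.polar_comm Q x' v, h']
    simp
  have h2 : QuadraticMap.polar Q (eichL Q v x' z) x = QuadraticMap.polar Q z x
      + QuadraticMap.polar Q z v * QuadraticMap.polar Q x' x := by
    rw [eichL_apply, QuadraticMap.polar_sub_left, QuadraticMap.polar_sub_left,
      QuadraticMap.polar_add_left, QuadraticMap.polar_smul_left, QuadraticMap.polar_smul_left,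
      QuadraticMap.polar_smul_left, h]
    simp
  rw [eichL_apply Q v x, h1, h2, eichL_apply, eichL_apply, Q_add, QuadraticMap.polar_add_right,
    QuadraticMap.polar_comm Q x' x]
  module

theorem eichL_zero (Q : QuadraticForm F V) (v z : V) : eichL Q v 0 z = z := by
  rw [eichL_apply]
  simp

theorem Q_eichL (Q : QuadraticForm F V) (v x z : V) (hv : Q v = 0)
    (h : QuadraticMap.polar Q v x = 0) : Q (eichL Q v x z) = Q z := by
  have e : eichL Q v x z = z + (QuadraticMap.polar Q z v • x +
      (-(QuadraticMap.polar Q z x + Q x * QuadraticMap.polar Q z v)) • v) := by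
    rw [eichL_apply]; module
  rw [e, Q_add, Q_add]
  simp only [QuadraticMap.map_smul, QuadraticMap.polar_add_right, QuadraticMap.polar_smul_right,
    QuadraticMap.polar_smul_left, smul_eq_mul, hv, QuadraticMap.polar_comm Q x v, h]
  ring

end

section
variable {F V K : Type} [Field F] [AddCommGroup V] [Module F V] [Field K] [Algebra F K]

theorem key (Q : QuadraticForm F V) (P : QuadraticForm F K) (hP : ND P) (ι : K →ₗ[F] V)
    (hι : ∀ x, Q (ι x) = P x) (v v' : V) (hv : Q v = 0) (hvv' : QuadraticMap.polar Q v' v ≠ 0)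
    (horth : ∀ k, QuadraticMap.polar Q v (ι k) = 0) (y : V ≃ₗ[F] V) (hy : y ∈ OmV Q)
    (hyv : y v = v) (μ : K) (hμ : μ ≠ 0) (hyι : ∀ k, y (ι k) = ι (μ * k)) (d : ℕ)
    (hd : OLaw Q d) : ∃ r : ℕ, (μ⁻¹ - 1) ^ (r + d) = (μ⁻¹ - 1) ^ r := by
  have hyO : ∀ z, Q (y z) = Q z := OmV_le Q hy
  have hypol : ∀ a b, QuadraticMap.polar Q (y a) (y b) = QuadraticMap.polar Q a b := by
    intro a b
    simp only [QuadraticMap.polar, ← map_add, hyO]
  -- the group of Eichler transformations
  have hinv : ∀ k z, eichL Q v (ι k) (eichL Q v (ι (-k)) z) = z := by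
    intro k z
    rw [eichL_comp Q v _ _ z hv (horth _) (horth _), ← map_add, add_neg_cancel, map_zero,
      eichL_zero]
  have hinv' : ∀ k z, eichL Q v (ι (-k)) (eichL Q v (ι k) z) = z := by
    intro k z
    rw [eichL_comp Q v _ _ z hv (horth _) (horth _), ← map_add, neg_add_cancel, map_zero,
      eichL_zero]
  let E : K → (V ≃ₗ[F] V) := fun k => LinearEquiv.ofLinearMap (eichL Q v (ι k)) (eichL Q v (ι (-k)))
    (LinearMap.ext fun z => hinv k z) (LinearMap.ext fun z => hinv' k z)
  have hE : ∀ k z, E k z = eichL Q v (ι k) z := fun k z => rfl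
  have hEmul : ∀ a b, E a * E b = E (a + b) := by
    intro a b
    apply LinearEquiv.ext
    intro z
    change E a (E b z) = E (a + b) z
    rw [hE, hE, hE, eichL_comp Q v _ _ z hv (horth _) (horth _), ← map_add]
  have hE0 : E 0 = 1 := by
    apply LinearEquiv.ext
    intro z
    rw [hE, map_zero, eichL_zero]
    rfl
  have hEinv : ∀ a, (E a)⁻¹ = E (-a) := by
    intro a
    rw [inv_eq_iff_mul_eq_one, hEmul, add_neg_cancel, hE0]
  have hEO : ∀ a, E a ∈ OV Q := by
    intro a z
    rw [hE]
    exact Q_eichL Q v (ι a) z hv (horth a)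
  have hconj : ∀ k, y⁻¹ * E k * y = E (μ⁻¹ * k) := by
    intro k
    rw [mul_assoc, inv_mul_eq_iff_eq_mul]
    apply LinearEquiv.ext
    intro z
    change E k (y z) = y (E (μ⁻¹ * k) z)
    have hk : ι k = y (ι (μ⁻¹ * k)) := by
      rw [hyι, mul_inv_cancel_left₀ hμ]
    have e1 : QuadraticMap.polar Q (y z) v = QuadraticMap.polar Q z v := by
      conv_lhs => rw [← hyv]
      exact hypol z v
    have e2 : QuadraticMap.polar Q (y z) (ι k) = QuadraticMap.polar Q z (ι (μ⁻¹ * k)) := by
      rw [hk]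
      exact hypol _ _
    have e3 : Q (ι k) = Q (ι (μ⁻¹ * k)) := by
      rw [hk]
      exact hyO _
    rw [hE, hE, eichL_apply, eichL_apply, e1, e2, e3, map_sub, map_sub, map_add, map_smul,
      map_smul, map_smul, hyv, ← hk]
  have heng : ∀ k, eng y (E k) = E ((μ⁻¹ - 1) * k) := by
    intro k
    rw [eng, mul_assoc, mul_assoc, ← mul_assoc y⁻¹, hconj, hEinv, hEmul]
    congr 1
    ring
  have hiter : ∀ (n : ℕ) (k : K), (eng y)^[n] (E k) = E ((μ⁻¹ - 1) ^ n * k) := by
    intro n
    induction n with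
    | zero => intro k; simp
    | succ n ih =>
      intro k
      rw [Function.iterate_succ_apply, heng, ih, pow_succ, mul_assoc]
  obtain ⟨r, hr⟩ := hd
  refine ⟨r, ?_⟩
  obtain ⟨c, hc⟩ := hr (E 1) (hEO 1) y hy
  rw [hiter, hiter, mul_one, mul_one] at hc
  have hEv : ∀ k, E k v = v := by
    intro k
    rw [hE, eichL_apply, horth, polar_self' Q v hv]
    simp
  have hv0 : v ≠ 0 := by
    rintro rfl
    apply hvv'
    rw [QuadraticMap.polar_zero_right]
  have hc1 : c = 1 := by
    have h1 := hc v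
    rw [hEv, hEv] at h1
    have h2 : (c - 1) • v = 0 := by rw [sub_smul, one_smul, ← h1, sub_self]
    rcases smul_eq_zero.1 h2 with h3 | h3
    · linear_combination h3
    · exact absurd h3 hv0
  subst hc1
  have h3 := hc v'
  rw [one_smul, hE, hE, eichL_apply, eichL_apply] at h3
  obtain ⟨a, ha⟩ : ∃ a, a = (μ⁻¹ - 1) ^ (r + d) := ⟨_, rfl⟩
  obtain ⟨b, hb⟩ : ∃ b, b = (μ⁻¹ - 1) ^ r := ⟨_, rfl⟩
  rw [← ha, ← hb] at h3 ⊢
  have h4 : QuadraticMap.polar Q v' v • ι (a - b) =
      (QuadraticMap.polar Q v' (ι a) - QuadraticMap.polar Q v' (ι b)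
        + (Q (ι a) - Q (ι b)) * QuadraticMap.polar Q v' v) • v := by
    rw [map_sub, smul_sub]
    have := sub_eq_zero.2 h3
    rw [← sub_eq_zero, ← this]
    module
  have h5 : a - b = 0 := by
    apply hP
    intro u
    have h6 : QuadraticMap.polar P (a - b) u = QuadraticMap.polar Q (ι (a - b)) (ι u) := by
      simp only [QuadraticMap.polar, ← map_add, hι]
    have h7 : QuadraticMap.polar Q _ (ι u) = QuadraticMap.polar Q _ (ι u) :=
      congrArg (fun w => QuadraticMap.polar Q w (ι u)) h4
    rw [QuadraticMap.polar_smul_left, QuadraticMap.polar_smul_left, horth, smul_zero,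
      smul_eq_mul] at h7
    rw [h6]
    exact (mul_eq_zero.1 h7).resolve_left hvv'
  exact sub_eq_zero.1 h5

end

/-- ODM1 -/
theorem odm1 (hreal : OrealStmt) (hext : OextStmt) (_ : OhydStmt) (hstd : OstdStmt) :
    Odm1Stmt := by
  intro F V K _ _ _ _ _ _ _ _ Q P ι p k lam hN h5 hK2 hP1 hι hlam hp hp2 hk hord d hd hL
  have := Fintype.ofFinite F
  have hfin : Finite K := Module.finite_of_finite F
  have hPnd : ND P := (hstd F K 1 le_rfl (by omega)).2 P hP1
  have hpk : 3 ≤ p ^ k := by
    have h3 : 3 ≤ p := by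
      have := hp.two_le
      omega
    calc 3 ≤ p := h3
      _ = p ^ 1 := (pow_one p).symm
      _ ≤ p ^ k := Nat.pow_le_pow_right (by omega) hk
  have hlam0 : lam ≠ 0 := by
    rintro rfl
    rw [zero_pow (by omega)] at hlam
    exact zero_ne_one hlam
  have hlam2 : lam ^ 2 ≠ 1 := by
    intro h
    have h1 := orderOf_dvd_of_pow_eq_one h
    rw [hord] at h1
    have := Nat.le_of_dvd two_pos h1
    omega
  have hlam1 : lam ≠ 1 := by
    rintro rfl
    exact hlam2 (one_pow 2)
  -- multiplication by `lam`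
  let g : K ≃ₗ[F] K := LinearEquiv.ofLinearMap (LinearMap.mulLeft F lam) (LinearMap.mulLeft F lam⁻¹)
    (LinearMap.ext fun x => by simp [hlam0]) (LinearMap.ext fun x => by simp [hlam0])
  have hg : ∀ x, g x = lam * x := fun x => rfl
  have hPx : ∀ x, algebraMap F K (P x) = x ^ (1 + Nat.card F) := by
    intro x
    rw [hP1 x]
    simp
  have hgO : g ∈ OV P := by
    intro x
    apply (algebraMap F K).injective
    rw [hPx, hPx, hg, mul_pow, add_comm 1 (Nat.card F), hlam, one_mul]
  have hgpow : ∀ (n : ℕ) (x : K), (g ^ n) x = lam ^ n * x := by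
    intro n
    induction n with
    | zero => intro x; simp
    | succ n ih =>
      intro x
      rw [pow_succ]
      change (g ^ n) (g x) = _
      rw [ih, hg, pow_succ, mul_assoc]
  have hspan : Submodule.span F (Set.range fun i : ℕ => (g ^ i) (1 : K)) = ⊤ := by
    set S := Submodule.span F (Set.range fun i : ℕ => (g ^ i) (1 : K)) with hS
    have hS1 : (1 : K) ∈ S := Submodule.subset_span ⟨0, by simp⟩
    have hSl : lam ∈ S := Submodule.subset_span ⟨1, by
      change (g ^ 1) (1 : K) = lam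
      rw [hgpow, pow_one, mul_one]⟩
    apply Submodule.eq_top_of_finrank_eq
    have hle := Submodule.finrank_le S
    have hpos : 0 < Module.finrank F S := by
      rw [Module.finrank_pos_iff_exists_ne_zero]
      exact ⟨⟨1, hS1⟩, fun h => one_ne_zero (congrArg Subtype.val h)⟩
    by_contra hne
    have h1 : Module.finrank F S = 1 := by omega
    rw [finrank_eq_one_iff_of_nonzero' (⟨1, hS1⟩ : S)
      (fun h => one_ne_zero (congrArg Subtype.val h))] at h1
    obtain ⟨c, hc⟩ := h1 ⟨lam, hSl⟩
    have hc' : c • (1 : K) = lam := congrArg Subtype.val hc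
    apply hlam2
    have h2 : lam ^ Nat.card F = lam := by
      rw [← hc', Algebra.smul_def, mul_one, ← map_pow, Nat.card_eq_fintype_card,
        FiniteField.pow_card]
    rw [pow_succ, h2] at hlam
    rw [pow_two]
    exact hlam
  have hordg : orderOf g = orderOf lam := by
    rw [orderOf_eq_orderOf_iff]
    intro n
    constructor
    · intro h
      have h9 : (g ^ n) 1 = (1 : K ≃ₗ[F] K) 1 := congrArg (fun f : K ≃ₗ[F] K => f 1) h
      rw [hgpow, mul_one] at h9
      exact h9
    · intro h
      apply LinearEquiv.ext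
      intro x
      rw [hgpow, h, one_mul]
      rfl
  have hpodd : Odd (p ^ k) := (hp.odd_of_ne_two hp2).pow
  have hgOm : g ∈ OmV P := (hreal F K P hPnd g hgO 1 hspan).2 (by rw [hordg, hord]; exact hpodd)
  obtain ⟨Φ, hΦ1, hΦ2, hΦ3, hΦ4⟩ := hext F K V P Q ι hPnd hι
  obtain ⟨y, hy⟩ : ∃ y, y = Φ ⟨g, hgO⟩ := ⟨_, rfl⟩
  have hyOm : y ∈ OmV Q := by rw [hy]; exact hΦ4 _ hgOm
  have hyι : ∀ x, y (ι x) = ι (lam * x) := by
    intro x
    rw [hy, hΦ2]
    rfl
  -- a singular vector orthogonal to `ι K`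
  let φ : V →ₗ[F] (Module.Dual F K) := (LinearMap.lcomp F F ι).comp Q.polarBilin
  have hφ : ∀ v x, φ v x = QuadraticMap.polar Q v (ι x) := fun v x => rfl
  have hM : 3 ≤ Module.finrank F (LinearMap.ker φ) := by
    have h1 := LinearMap.finrank_range_add_finrank_ker φ
    have h2 : Module.finrank F (LinearMap.range φ) ≤ Module.finrank F (Module.Dual F K) :=
      Submodule.finrank_le _
    rw [Subspace.dual_finrank_eq, hK2] at h2
    omega
  obtain ⟨v, hvM, hv0, hQv⟩ := exists_singular Q _ hM
  have horth : ∀ x, QuadraticMap.polar Q v (ι x) = 0 := by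
    intro x
    rw [LinearMap.mem_ker] at hvM
    rw [← hφ, hvM]
    rfl
  obtain ⟨v', hv'⟩ : ∃ v', QuadraticMap.polar Q v' v ≠ 0 := by
    by_contra hcon
    push Not at hcon
    apply hv0
    apply hN
    intro w
    rw [QuadraticMap.polar_comm]
    exact hcon w
  have hyv : y v = v := by
    rw [hy]
    exact hΦ3 _ v horth
  obtain ⟨r1, hr1⟩ := key Q P hPnd ι hι v v' hQv hv' horth y hyOm hyv lam hlam0 hyι d hL
  obtain ⟨r2, hr2⟩ := key Q P hPnd ι hι v v' hQv hv' horth y⁻¹ ((OmV Q).inv_mem hyOm)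
    (by
      change y.symm v = v
      rw [LinearEquiv.symm_apply_eq, hyv]) lam⁻¹ (inv_ne_zero hlam0)
    (by
      intro x
      change y.symm (ι x) = _
      rw [LinearEquiv.symm_apply_eq, hyι, mul_inv_cancel_left₀ hlam0]) d hL
  rw [inv_inv] at hr2
  have hT1 : lam⁻¹ - 1 ≠ 0 := by
    intro h
    apply hlam1
    rw [sub_eq_zero] at h
    exact inv_eq_one.1 h
  have hT2 : lam - 1 ≠ 0 := sub_ne_zero.2 hlam1
  have h1 : (lam⁻¹ - 1) ^ d = 1 := by
    rw [pow_add] at hr1
    exact mul_left_cancel₀ (pow_ne_zero r1 hT1) (by rw [hr1, mul_one])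
  have h2 : (lam - 1) ^ d = 1 := by
    rw [pow_add] at hr2
    exact mul_left_cancel₀ (pow_ne_zero r2 hT2) (by rw [hr2, mul_one])
  have h3 : lam ^ (2 * d) = 1 := by
    have h4 : (lam⁻¹ - 1) * lam = -(lam - 1) := by
      field_simp
      ring
    have h5 : ((lam⁻¹ - 1) * lam) ^ d = (-(lam - 1)) ^ d := by rw [h4]
    rw [mul_pow, h1, one_mul, neg_pow, h2, mul_one] at h5
    rw [mul_comm, pow_mul, h5, ← pow_mul, mul_comm, pow_mul]
    simp
  have h6 := orderOf_dvd_of_pow_eq_one h3
  rw [hord] at h6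
  exact (Nat.Coprime.dvd_of_dvd_mul_left (Nat.Coprime.pow_left k
    ((Nat.coprime_primes hp Nat.prime_two).2 hp2)) h6)

end Pool.Agent.Eng.H65
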