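import Pool.Agent.Helper99_Eng3.Stmts

/-! # Squad ENG part 3, module OHYD: totally singular subspaces over finite fields.  helper65 -/

set_option autoImplicit false

namespace Pool.Agent.Eng.H65

open Pool.Agent.Eng MvPolynomial

theorem cw (F : Type) [Field F] [Finite F] (c : Fin 3 → Fin 3 → F) :
    ∃ x : Fin 3 → F, x ≠ 0 ∧ ∑ i, ∑ j, c i j * (x i * x j) = 0 := by
  classical
  have := Fintype.ofFinite F
  obtain ⟨p, hp⟩ := CharP.exists F
  have hpp : Nat.Prime p := (CharP.char_is_prime F p)
  set f : MvPolynomial (Fin 3) F := ∑ i, ∑ j, C (c i j) * (X i * X j) with hf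
  have hdeg : f.totalDegree ≤ 2 := by
    rw [hf]
    refine totalDegree_finsetSum_le fun i _ => totalDegree_finsetSum_le fun j _ => ?_
    refine (totalDegree_mul _ _).trans ?_
    rw [totalDegree_C, zero_add]
    refine (totalDegree_mul _ _).trans ?_
    rw [totalDegree_X, totalDegree_X]
  have hev : ∀ x : Fin 3 → F, eval x f = ∑ i, ∑ j, c i j * (x i * x j) := by
    intro x
    rw [hf]
    simp only [map_sum, map_mul, eval_C, eval_X]
  have hdvd := char_dvd_card_solutions p (K := F) (f := f) (by
    rw [Fintype.card_fin]; omega)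
  by_contra hcon
  push Not at hcon
  have hcard : Fintype.card { x : Fin 3 → F // eval x f = 0 } = 1 := by
    rw [Fintype.card_eq_one_iff]
    refine ⟨⟨0, by rw [hev]; simp⟩, fun y => ?_⟩
    obtain ⟨y, hy⟩ := y
    by_contra hne
    apply hcon y
    · intro h0
      apply hne
      subst h0
      rfl
    · rw [← hev]; exact hy
  rw [hcard] at hdvd
  exact hpp.one_lt.ne' (Nat.dvd_one.1 hdvd)

/-- A quadratic form in at least three variables over a finite field has a nontrivial zero. -/
theorem exists_singular {F V : Type} [Field F] [Finite F] [AddCommGroup V] [Module F V]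
    [FiniteDimensional F V] (Q : QuadraticForm F V) (M : Submodule F V)
    (hM : 3 ≤ Module.finrank F M) : ∃ u ∈ M, u ≠ 0 ∧ Q u = 0 := by
  obtain ⟨b, hb⟩ := exists_linearIndependent_of_le_finrank hM
  obtain ⟨x, hx0, hx⟩ := cw F (fun i j => if i = j then Q (b i) else
    if i < j then QuadraticMap.polar Q (b i) (b j) else 0)
  refine ⟨∑ i, x i • (b i : V), Submodule.sum_mem _ fun i _ => M.smul_mem _ (b i).2, ?_, ?_⟩
  · intro h0
    apply hx0
    have h1 : ∑ i, x i • b i = 0 := by
      apply Subtype.ext
      rw [ZeroMemClass.coe_zero, ← h0]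
      simp
    have := Fintype.linearIndependent_iff.1 hb x h1
    funext i
    exact this i
  · rw [← hx]
    simp only [Fin.sum_univ_three]
    have h2 : ∀ u v : V, Q (u + v) = Q u + Q v + QuadraticMap.polar Q u v := by
      intro u v
      rw [QuadraticMap.polar]; ring
    rw [h2, h2, QuadraticMap.polar_add_left]
    simp only [QuadraticMap.map_smul, QuadraticMap.polar_smul_left, QuadraticMap.polar_smul_right,
      smul_eq_mul]
    simp
    ring

/-- OHYD -/
theorem ohyd : OhydStmt := by
  intro F V _ _ _ _ _ Q e _ hN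
  induction e with
  | zero => exact ⟨⊥, by simp, fun w hw => by rw [(Submodule.mem_bot F).1 hw]; exact map_zero Q⟩
  | succ e ih =>
    obtain ⟨W, hW, hQW⟩ := ih (by omega)
    -- the orthogonal space
    let φ : V →ₗ[F] (Module.Dual F W) :=
      (LinearMap.lcomp F F W.subtype).comp Q.polarBilin
    have hφ : ∀ v (w : W), φ v w = QuadraticMap.polar Q v w := fun v w => rfl
    set K := LinearMap.ker φ with hK
    have hKmem : ∀ v, v ∈ K ↔ ∀ w ∈ W, QuadraticMap.polar Q v w = 0 := by
      intro v
      rw [hK, LinearMap.mem_ker]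
      constructor
      · intro h w hw
        have := congrArg (fun f => f ⟨w, hw⟩) h
        exact this
      · intro h
        ext w
        exact h w w.2
    have hWK : W ≤ K := by
      intro w hw
      rw [hKmem]
      intro w' hw'
      rw [QuadraticMap.polar, hQW _ (W.add_mem hw hw'), hQW _ hw, hQW _ hw']
      ring
    have hfr : e + 3 ≤ Module.finrank F K := by
      have h1 := LinearMap.finrank_range_add_finrank_ker φ
      have h2 : Module.finrank F (LinearMap.range φ) ≤ Module.finrank F (Module.Dual F W) :=
        Submodule.finrank_le _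
      rw [Subspace.dual_finrank_eq, hW] at h2
      rw [hK]
      omega
    -- a complement of `W` in `K`
    obtain ⟨C, hC⟩ := Submodule.exists_isCompl (W.comap K.subtype)
    have hWcomap : Module.finrank F (W.comap K.subtype) = e := by
      rw [← hW]
      exact (Submodule.comapSubtypeEquivOfLe hWK).finrank_eq
    have hCfr : 3 ≤ Module.finrank F C := by
      have := Submodule.finrank_add_eq_of_isCompl hC
      omega
    have hC' : 3 ≤ Module.finrank F (C.map K.subtype) := by
      rw [← (Submodule.equivMapOfInjective K.subtype K.injective_subtype C).finrank_eq]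
      exact hCfr
    obtain ⟨u, huC, hu0, hQu⟩ := exists_singular Q (C.map K.subtype) hC'
    obtain ⟨u', hu'C, rfl⟩ := (Submodule.mem_map).1 huC
    have huW : (K.subtype u') ∉ W := by
      intro h
      have h1 : u' ∈ (W.comap K.subtype) ⊓ C := ⟨h, hu'C⟩
      rw [hC.inf_eq_bot, Submodule.mem_bot] at h1
      apply hu0
      rw [h1]
      rfl
    obtain ⟨u, hu⟩ : ∃ u, u = K.subtype u' := ⟨_, rfl⟩
    rw [← hu] at huW hQu hu0
    have huK : u ∈ K := by rw [hu]; exact u'.2
    refine ⟨W ⊔ Submodule.span F {u}, ?_, ?_⟩
    · have h1 := Submodule.finrank_sup_add_finrank_inf_eq W (Submodule.span F {u})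
      have h2 : W ⊓ Submodule.span F {u} = ⊥ := by
        rw [eq_bot_iff]
        rintro x ⟨hx1, hx2⟩
        obtain ⟨c, rfl⟩ := Submodule.mem_span_singleton.1 hx2
        rw [Submodule.mem_bot]
        by_cases hc : c = 0
        · rw [hc, zero_smul]
        · exfalso
          apply huW
          have := W.smul_mem c⁻¹ hx1
          rwa [smul_smul, inv_mul_cancel₀ hc, one_smul] at this
      rw [h2, finrank_bot, add_zero, finrank_span_singleton hu0, hW] at h1
      exact h1
    · intro w hw
      obtain ⟨w1, hw1, w2, hw2, rfl⟩ := Submodule.mem_sup.1 hw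
      obtain ⟨c, rfl⟩ := Submodule.mem_span_singleton.1 hw2
      have h2 : Q (w1 + c • u) = Q w1 + Q (c • u) + QuadraticMap.polar Q w1 (c • u) := by
        rw [QuadraticMap.polar]; ring
      rw [h2, QuadraticMap.map_smul, hQu, hQW _ hw1, QuadraticMap.polar_smul_right,
        QuadraticMap.polar_comm, (hKmem u).1 huK _ hw1]
      simp

end Pool.Agent.Eng.H65
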